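import Mathlib
import Pool.Agent.H439Z.WFJohn

set_option autoImplicit false

namespace Pool.Agent.Results.MP_70096d_gt.ACounterexample

open Pool.Agent.H439Z.WF

/-- There is a well-filtered dcpo `P` such that the Scott space of `P × Q` is not well-filtered
for any nonempty poset `Q`; in particular for `Q = P`. -/
theorem result : ∃ (P : Type) (_ : PartialOrder P), Nonempty P ∧ IsDcpo P ∧ WellFilteredPoset P ∧
    ∀ (Q : Type) [PartialOrder Q], Nonempty Q →
      ¬ WellFiltered (Topology.scott (P × Q) Set.univ) :=
  ⟨JT, inferInstance, ⟨JT.top⟩, dcpo_JT, wfposet_JT, fun Q _ ⟨q⟩ => not_wf_prod Q q⟩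

end Pool.Agent.Results.MP_70096d_gt.ACounterexample
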