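import Mathlib
import Pool.Agent.H439Z.WFProd

set_option autoImplicit false

namespace Pool.Agent.Results.MP_70096d_gt.BScottProduct

open Pool.Agent.H439Z.WF

universe u v

/-- If the Scott spaces of two posets are well-filtered, so is the Scott space of their product. -/
theorem result (P : Type u) (Q : Type v) [PartialOrder P] [PartialOrder Q]
    (hP : WellFiltered (Topology.scott P Set.univ))
    (hQ : WellFiltered (Topology.scott Q Set.univ)) :
    WellFiltered (Topology.scott (P × Q) Set.univ) :=
  prod_wf P Q hP hQ

end Pool.Agent.Results.MP_70096d_gt.BScottProduct
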